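import Mathlib
import Pool.Agent.Q233.EW
import Pool.Agent.Q233.EW3
import Pool.Agent.Q233.EWn
import Pool.Agent.Q233.EWsign
import Pool.Agent.Q233.EW4

/-!
# MP_709dca_mp, Q1: mirrored pairs of optimal witnesses exist in all dimensions `d ≥ 3`

* `d = 3`: `14 - T3`, `14 + T3` with an integer matrix `T3`;
* `d = 4`: `1 - K4`, `1 + K4`, with `K4` a signed sum over the generators of `sp(2)`;
* `d ≥ 5`: `1 - S`, `1 + S`, with `S = ∑ e_{ij} (|ij⟩⟨ji| - |ii⟩⟨jj|)` for signs `e_{ij} = ±1` such
  that every pair is contained in triangles of both signs.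
-/

namespace Pool.Agent.Results.MP_709dca_mp.AllDimensions

open Matrix Q233.EW
open scoped Kronecker ComplexOrder

/-- **MP_709dca_mp, Q1 (answer: all `d ≥ 4`).** For every `d ≥ 3` there is a mirrored pair of
optimal entanglement witnesses on `ℂ^d ⊗ ℂ^d`. -/
theorem result : ∀ d : ℕ, 3 ≤ d →
    ∃ W M : Matrix (Fin d × Fin d) (Fin d × Fin d) ℂ, IsMirroredOptimalPair W M := by
  intro d hd
  rcases Nat.lt_or_ge d 5 with h | h
  · interval_cases d
    · refine ⟨W3, M3, W3_optimal, M3_optimal, 28, ?_⟩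
      rw [W3, M3, sub_add_add_cancel, ← add_smul]
      norm_num
    · exact mirrored_four
  · exact mirrored_ge5 h

end Pool.Agent.Results.MP_709dca_mp.AllDimensions
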